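import Mathlib
import Pool.Agent.Work.MP_7fa5ba_co.TowerCov

set_option autoImplicit false

/-!
The linear covering density of Hamming balls of radius two is one.
-/

namespace Pool.Agent.Results.MP_7fa5ba_co.LinearCoveringDensity

open Filter Topology

/-- The Hamming ball `H(r) = H_n(r)`: the vectors of `F_2^n` with at most `r` nonzero
coordinates. -/
def ball (n r : ℕ) : Finset (Fin n → ZMod 2) :=
  Finset.univ.filter fun x => hammingNorm x ≤ r

/-- The linear subspace `V` of `F_2^n` is a covering subspace for the radius `r`: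
`V + H(r) = F_2^n`. -/
def IsCovering (n r : ℕ) (V : Submodule (ZMod 2) (Fin n → ZMod 2)) : Prop :=
  ∀ x : Fin n → ZMod 2, ∃ v ∈ V, ∃ h ∈ ball n r, v + h = x

/-- The density `|V| |H(r)| / 2^n` of the subspace `V`. -/
noncomputable def density (n r : ℕ) (V : Submodule (ZMod 2) (Fin n → ZMod 2)) : ℝ :=
  (Nat.card V : ℝ) * ((ball n r).card : ℝ) / 2 ^ n

/-- `m_n(r)`: the minimum of the densities of the covering subspaces of `F_2^n` for the radius `r`
(the theorem below contains the statement that the minimum is attained). -/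
noncomputable def m (n r : ℕ) : ℝ :=
  sInf {c : ℝ | ∃ V : Submodule (ZMod 2) (Fin n → ZMod 2), IsCovering n r V ∧ c = density n r V}

/-- `f(r) = liminf_{n → ∞} m_n(r)`. -/
noncomputable def f (r : ℕ) : ℝ := liminf (fun n : ℕ => m n r) atTop

namespace Aux

open N8b55e67f
open scoped ENNReal Pointwise

lemma isCovering_iff (n r : ℕ) (V : Submodule (ZMod 2) (Fin n → ZMod 2)) :
    IsCovering n r V ↔ IsCoveringSubspace n r V := by
  unfold IsCovering IsCoveringSubspace
  rw [Set.eq_univ_iff_forall]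
  refine forall_congr' fun x => ?_
  rw [Set.mem_add]
  constructor
  · rintro ⟨v, hv, h, hh, e⟩
    exact ⟨v, hv, h, (Finset.mem_filter.1 hh).2, e⟩
  · rintro ⟨v, hv, h, hh, e⟩
    exact ⟨v, hv, h, Finset.mem_filter.2 ⟨Finset.mem_univ _, hh⟩, e⟩

lemma card_ball (n r : ℕ) : Nat.card (hammingBall n r) = (ball n r).card := by
  have : hammingBall n r = (ball n r : Set (Fin n → ZMod 2)) := by
    ext x
    simp [hammingBall, ball]
  rw [this]
  simp

lemma density_ofReal (n r : ℕ) (V : Submodule (ZMod 2) (Fin n → ZMod 2)) :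
    (Nat.card V : ℝ≥0∞) * (Nat.card (hammingBall n r) : ℝ≥0∞) / (2 ^ n : ℝ≥0∞) =
      ENNReal.ofReal (density n r V) := by
  unfold density
  rw [card_ball, ENNReal.ofReal_div_of_pos (by positivity), ENNReal.ofReal_mul (by positivity),
    ENNReal.ofReal_natCast, ENNReal.ofReal_natCast, ENNReal.ofReal_pow (by norm_num)]
  simp

lemma density_nonneg (n r : ℕ) (V : Submodule (ZMod 2) (Fin n → ZMod 2)) :
    0 ≤ density n r V := by
  unfold density
  positivity

lemma isCovering_top (n r : ℕ) : IsCovering n r ⊤ := fun x =>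
  ⟨x, trivial, 0, Finset.mem_filter.2 ⟨Finset.mem_univ _, by simp⟩, add_zero x⟩

lemma one_le_density (n r : ℕ) (V : Submodule (ZMod 2) (Fin n → ZMod 2))
    (hV : IsCovering n r V) : 1 ≤ density n r V := by
  have h1 := Pool.Agent.MP7fa5ba.one_le_minDensity n r
  have h2 : minDensity n r ≤ ENNReal.ofReal (density n r V) := by
    rw [← density_ofReal]
    exact iInf₂_le V ((isCovering_iff n r V).1 hV)
  exact ENNReal.one_le_ofReal.1 (h1.trans h2)

/-- a covering subspace of least density -/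
lemma exists_min (n r : ℕ) : ∃ V : Submodule (ZMod 2) (Fin n → ZMod 2), IsCovering n r V ∧
    ∀ U : Submodule (ZMod 2) (Fin n → ZMod 2), IsCovering n r U → density n r V ≤ density n r U := by
  have hf : Finite (Submodule (ZMod 2) (Fin n → ZMod 2)) := inferInstance
  have hne : {V : Submodule (ZMod 2) (Fin n → ZMod 2) | IsCovering n r V}.Nonempty :=
    ⟨⊤, isCovering_top n r⟩
  obtain ⟨V, hV, hmin⟩ := Set.exists_min_image _ (density n r) (Set.toFinite _) hne
  exact ⟨V, hV, hmin⟩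

lemma exists_eq_m (n r : ℕ) : ∃ V : Submodule (ZMod 2) (Fin n → ZMod 2), IsCovering n r V ∧
    density n r V = m n r ∧
    ∀ U : Submodule (ZMod 2) (Fin n → ZMod 2), IsCovering n r U → density n r V ≤ density n r U := by
  obtain ⟨V, hV, hmin⟩ := exists_min n r
  refine ⟨V, hV, ?_, hmin⟩
  have : IsLeast {c : ℝ | ∃ V : Submodule (ZMod 2) (Fin n → ZMod 2),
      IsCovering n r V ∧ c = density n r V} (density n r V) := by
    refine ⟨⟨V, hV, rfl⟩, ?_⟩
    rintro c ⟨U, hU, rfl⟩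
    exact hmin U hU
  exact this.csInf_eq.symm

lemma minDensity_eq (n r : ℕ) : minDensity n r = ENNReal.ofReal (m n r) := by
  obtain ⟨V, hV, he, hmin⟩ := exists_eq_m n r
  rw [← he]
  apply le_antisymm
  · rw [← density_ofReal]
    exact iInf₂_le V ((isCovering_iff n r V).1 hV)
  · refine le_iInf₂ fun U hU => ?_
    rw [density_ofReal]
    exact ENNReal.ofReal_le_ofReal (hmin U ((isCovering_iff n r U).2 hU))

lemma one_le_m (n r : ℕ) : 1 ≤ m n r := by
  obtain ⟨V, hV, he, -⟩ := exists_eq_m n r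
  rw [← he]
  exact one_le_density n r V hV

lemma exists_cover (i : ℕ) : ∃ N : ℕ, 2 ^ 2 ^ i ≤ N ∧ m N 2 ≤ (1 + 4 / 2 ^ 2 ^ i) ^ 2 := by
  obtain ⟨N, hN, h⟩ := Pool.Agent.MP7fa5ba.exists_cover i
  refine ⟨N, hN, ?_⟩
  rw [minDensity_eq] at h
  exact (ENNReal.ofReal_le_ofReal_iff (by positivity)).1 h

lemma pow_bound (k : ℕ) : ∃ i : ℕ, k ≤ 2 ^ 2 ^ i ∧
    (1 + 4 / 2 ^ 2 ^ i : ℝ) ^ 2 ≤ 1 + 1 / ((k : ℝ) + 1) := by
  refine ⟨24 * (k + 1), ?_, ?_⟩
  · have h1 : 24 * (k + 1) < 2 ^ (24 * (k + 1)) := Nat.lt_two_pow_self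
    have h2 : 2 ^ (24 * (k + 1)) < 2 ^ 2 ^ (24 * (k + 1)) := Nat.lt_two_pow_self
    omega
  · set G : ℝ := 2 ^ 2 ^ (24 * (k + 1)) with hG
    have h0 : 24 * ((k : ℝ) + 1) ≤ G := by
      have h1 : 24 * (k + 1) < 2 ^ (24 * (k + 1)) := Nat.lt_two_pow_self
      have h2 : 2 ^ (24 * (k + 1)) < 2 ^ 2 ^ (24 * (k + 1)) := Nat.lt_two_pow_self
      have h3 : 24 * (k + 1) ≤ 2 ^ 2 ^ (24 * (k + 1)) := by omega
      have h4 : ((24 * (k + 1) : ℕ) : ℝ) ≤ ((2 ^ 2 ^ (24 * (k + 1)) : ℕ) : ℝ) := by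
        exact_mod_cast h3
      push_cast at h4
      exact h4
    have hk : (0 : ℝ) ≤ k := Nat.cast_nonneg k
    have hG1 : (1 : ℝ) ≤ G := by nlinarith
    have h4 : 1 / G ≤ 1 := by
      rw [div_le_one (by linarith)]
      exact hG1
    have h5 : 0 < 1 / G := by positivity
    have h6 : (1 + 4 / G) ^ 2 = 1 + 8 * (1 / G) + 16 * (1 / G) ^ 2 := by ring
    have h7 : 24 * (1 / G) ≤ 1 / ((k : ℝ) + 1) := by
      rw [mul_one_div, div_le_div_iff₀ (by linarith) (by linarith)]
      linarith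
    rw [h6]
    nlinarith

lemma frequently (k : ℕ) : ∃ᶠ n : ℕ in atTop, m n 2 ≤ 1 + 1 / ((k : ℝ) + 1) := by
  rw [Filter.frequently_atTop]
  intro a
  obtain ⟨i, hi, hb⟩ := pow_bound (a + k)
  obtain ⟨N, hN, h⟩ := exists_cover i
  refine ⟨N, by omega, h.trans (hb.trans ?_)⟩
  have hk : (0 : ℝ) ≤ k := Nat.cast_nonneg k
  have ha : (0 : ℝ) ≤ a := Nat.cast_nonneg a
  have : 1 / (((a + k : ℕ) : ℝ) + 1) ≤ 1 / ((k : ℝ) + 1) := by
    apply one_div_le_one_div_of_le (by linarith)
    push_cast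
    linarith
  linarith

lemma f_two : f 2 = 1 := by
  have hb : IsBoundedUnder (· ≥ ·) atTop (fun n : ℕ => m n 2) :=
    isBoundedUnder_of ⟨1, fun n => one_le_m n 2⟩
  apply le_antisymm
  · apply le_of_forall_pos_le_add
    intro ε hε
    obtain ⟨k, hk⟩ := exists_nat_one_div_lt hε
    exact (liminf_le_of_frequently_le (frequently k) hb).trans (by linarith)
  · have hc : IsCoboundedUnder (· ≥ ·) atTop (fun n : ℕ => m n 2) :=
      IsCoboundedUnder.of_frequently_le (frequently 0)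
    exact le_liminf_of_le hc (Eventually.of_forall fun n => one_le_m n 2)

end Aux

/-- **`f(2) = 1`.** The first clause is the definition of `m_n(r)` as a minimum; the second clause
is `f(2) = 1`; the third clause is the explicit form: there are dimensions
`n_0 < n_1 < ...` and linear subspaces `V_k` of `F_2^(n_k)` with `V_k + H(2) = F_2^(n_k)` and
`|V_k| |H(2)| / 2^(n_k) → 1`; the fourth clause is the lower bound `|V| |H(2)| ≥ 2^n` for every
covering subspace. -/
theorem result :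
    (∀ n r : ℕ, IsLeast {c : ℝ | ∃ V : Submodule (ZMod 2) (Fin n → ZMod 2),
      IsCovering n r V ∧ c = density n r V} (m n r)) ∧
    f 2 = 1 ∧
    (∃ n : ℕ → ℕ, StrictMono n ∧ ∃ V : ∀ k : ℕ, Submodule (ZMod 2) (Fin (n k) → ZMod 2),
      (∀ k, IsCovering (n k) 2 (V k)) ∧
      Tendsto (fun k => density (n k) 2 (V k)) atTop (𝓝 1)) ∧
    ∀ (n : ℕ) (V : Submodule (ZMod 2) (Fin n → ZMod 2)), IsCovering n 2 V → 1 ≤ density n 2 V := by
  refine ⟨fun n r => ?_, Aux.f_two, ?_, fun n V hV => Aux.one_le_density n 2 V hV⟩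
  · obtain ⟨V, hV, he, hmin⟩ := Aux.exists_eq_m n r
    rw [← he]
    refine ⟨⟨V, hV, rfl⟩, ?_⟩
    rintro c ⟨U, hU, rfl⟩
    exact hmin U hU
  · obtain ⟨n, hn, h⟩ := Filter.extraction_forall_of_frequently Aux.frequently
    choose V hV he _ using fun k => Aux.exists_eq_m (n k) 2
    refine ⟨n, hn, V, hV, ?_⟩
    have h0 : Tendsto (fun k : ℕ => (1 : ℝ) + 1 / ((k : ℝ) + 1)) atTop (𝓝 1) := by
      have := tendsto_one_div_add_atTop_nhds_zero_nat (𝕜 := ℝ)
      simpa using this.const_add (1 : ℝ)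
    refine tendsto_of_tendsto_of_tendsto_of_le_of_le tendsto_const_nhds h0 ?_ ?_
    · intro k
      exact Aux.one_le_density _ _ _ (hV k)
    · intro k
      show density (n k) 2 (V k) ≤ _
      rw [he k]
      exact h k

end Pool.Agent.Results.MP_7fa5ba_co.LinearCoveringDensity
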